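import Mathlib

namespace Pool.Agent.Results.MP_329cea_co.Counter

open Finset

/-- the restricted sum `A +_F B` -/
def rs {p : ℕ} (A B : Finset (ZMod p)) (F : Finset (ZMod p × ZMod p)) : Finset (ZMod p) :=
  ((A ×ˢ B).filter fun q => q ∉ F).image fun q => q.1 + q.2

/-- `F` has maximum degree at most `d` -/
def Deg {p : ℕ} (F : Finset (ZMod p × ZMod p)) (d : ℕ) : Prop :=
  ∀ a, (F.filter fun q => q.1 = a).card ≤ d ∧ (F.filter fun q => q.2 = a).card ≤ d

def A : Finset (ZMod 37) := {0, 1, 6, 7, 8, 10, 11, 17, 22, 23, 26, 27, 33, 34, 35, 36}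

def S : Finset (ZMod 37) := {6, 7, 8, 23, 33, 34}

def F : Finset (ZMod 37 × ZMod 37) := (A ×ˢ A).filter fun q => q.1 + q.2 ∉ S

theorem result : ∃ (p : ℕ) (A : Finset (ZMod p)) (d : ℕ) (F : Finset (ZMod p × ZMod p)),
    p.Prime ∧ 1 ≤ A.card ∧ (A.card : ℝ) < (1 - 1 / 10) * p / 2 ∧ F ⊆ A ×ˢ A ∧ Deg F d ∧
      ∀ B ⊆ A, ((rs A B F).card : ℤ) ≤ 2 * A.card - 2 * d - 2 := by
  have c : A.card = 16 := by decide +kernel
  refine ⟨37, A, 12, F, by norm_num, by omega, by rw [c]; norm_num, filter_subset _ _,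
    by unfold Deg; decide +kernel, fun B hB => ?_⟩
  have : rs A B F ⊆ S := by
    intro x hx
    simp only [rs, F, mem_image, mem_filter, mem_product] at hx
    obtain ⟨q, ⟨h, g⟩, rfl⟩ := hx
    exact by_contra fun n => g ⟨⟨h.1, hB h.2⟩, n⟩
  have := card_le_card this
  have s : S.card = 6 := by decide +kernel
  omega

end Pool.Agent.Results.MP_329cea_co.Counter
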